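import Pool.Agent.helper52.DQ.NonHom

/-!
# Homogeneous quasimorphisms on `Diff₀(D², *)` modulo homomorphisms are one-dimensional

`DiskQM.DiffD` is the group of smooth orientation preserving diffeomorphisms of the closed unit disk
fixing the origin, `DiskQM.HomogQM Γ` is the real vector space of homogeneous quasimorphisms
on a group `Γ`, `DiskQM.HomSub Γ` is its subspace of homomorphisms `Γ → ℝ`, and `DiskQM.dimQbar Γ`
is the dimension of the quotient space.
-/

namespace Pool.Agent.Results.MP_d4f2c9_gt.QuasimorphismDimOne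

open DiskQM

/-- The linear functional detecting non-homomorphisms. -/
noncomputable def functional (s₁ s₂ h₀ : DiffD) : HomogQM DiffD →ₗ[ℝ] ℝ where
  toFun φ := (φ.1 s₁ + φ.1 (s₁⁻¹ * h₀)) - (φ.1 s₂ + φ.1 (s₂⁻¹ * h₀))
  map_add' φ ψ := by
    simp only [Submodule.coe_add, Pi.add_apply]; ring
  map_smul' c φ := by
    simp only [Submodule.coe_smul, Pi.smul_apply, smul_eq_mul, RingHom.id_apply]; ring

theorem functional_ker {s₁ s₂ h₀ : DiffD} (hd : Data s₁ s₂ h₀) {φ : HomogQM DiffD}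
    (h : functional s₁ s₂ h₀ φ = 0) : φ ∈ HomSub DiffD := by
  obtain ⟨⟨C, hC⟩, hz⟩ := φ.2
  have hφ : HQM φ.1 C := ⟨hC, hz⟩
  have h1 : φ.1 s₁ + φ.1 (s₁⁻¹ * h₀) = φ.1 s₂ + φ.1 (s₂⁻¹ * h₀) := sub_eq_zero.mp h
  exact hom_of_HH hφ (addOn_HH hφ hd h1)

/-- **Main theorem.** The space `Q(G)/Hom(G, ℝ)` of homogeneous quasimorphisms modulo homomorphisms
of the group `G = Diff₀(D², *)` of smooth orientation preserving diffeomorphisms of the closed disk
fixing the origin has dimension exactly one. -/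
theorem result : dimQbar DiffD = 1 := by
  rw [dimQbar, Module.rank_eq_one_iff_finrank_eq_one, finrank_eq_one_iff']
  obtain ⟨s₁, s₂, h₀, hd⟩ := exists_data
  obtain ⟨a, b, hab⟩ := Rot_not_hom
  set R : HomogQM DiffD := ⟨Rot, ⟨8, Rot_HQM.defect⟩, Rot_HQM.zpow⟩ with hR
  have hRn : R ∉ HomSub DiffD := fun h => hab (h a b)
  have hne : functional s₁ s₂ h₀ R ≠ 0 := fun h => hRn (functional_ker hd h)
  refine ⟨Submodule.Quotient.mk R, ?_, fun w => ?_⟩
  · rw [Ne, Submodule.Quotient.mk_eq_zero]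
    exact hRn
  · obtain ⟨φ, rfl⟩ := Submodule.Quotient.mk_surjective _ w
    refine ⟨functional s₁ s₂ h₀ φ / functional s₁ s₂ h₀ R, ?_⟩
    rw [← Submodule.Quotient.mk_smul, Submodule.Quotient.eq]
    apply functional_ker hd
    rw [map_sub, map_smul, smul_eq_mul, div_mul_cancel₀ _ hne, sub_self]

end Pool.Agent.Results.MP_d4f2c9_gt.QuasimorphismDimOne
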